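import Pool.Agent.N370.CF.Pack

/-!
# (1,1,2,3)-packing colourings of claw-free cubic graphs

Answer to Q1 of MP_b5f1b3_co: yes. Every claw-free cubic graph is (1,1,2,3)-packing colourable;
the graph need not be connected. The distance of vertices in different components is infinite.

The proof is assembled from the starting library `Pool/Agent/N370/CF`, which was written for the
graphs with a short cycle at every vertex: a claw-free cubic graph has the property `CC` (every
vertex has two adjacent neighbours), and a graph with this property has the colouring.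
-/

set_option autoImplicit false

namespace Pool.Agent.Results.MP_b5f1b3_co.ClawFreeCubic

open SimpleGraph

/-- `X` is an `s`-packing of `G`: any two different vertices of `X` have distance more than `s`.
The distance is the least length of a walk, and it is infinite without a walk. -/
def SPacking {V : Type*} (G : SimpleGraph V) (s : ℕ) (X : Set V) : Prop :=
  ∀ u ∈ X, ∀ v ∈ X, u ≠ v → ∀ p : G.Walk u v, s < p.length

/-- The finite graph `G` is cubic and claw-free: every vertex has three neighbours, and among any
three different neighbours of a vertex two are adjacent. -/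
structure ClawFreeCubic {V : Type*} (G : SimpleGraph V) : Prop where
  /-- `G` is cubic. -/
  cubic : ∀ v, (G.neighborSet v).ncard = 3
  /-- `G` has no induced subgraph isomorphic to `K_{1,3}`. -/
  claw : ∀ v x y z, G.Adj v x → G.Adj v y → G.Adj v z → x ≠ y → x ≠ z → y ≠ z →
    G.Adj x y ∨ G.Adj x z ∨ G.Adj y z

theorem not_ind {V : Type*} {G : SimpleGraph V} (h : ClawFreeCubic G) :
    Pool.Agent.N370.CF.ClawFree G := by
  rintro ⟨f⟩
  have hadj : ∀ i : Fin 3, G.Adj (f (Sum.inl 0)) (f (Sum.inr i)) := by
    intro i
    rw [f.map_adj_iff]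
    simp
  have hne : ∀ i j : Fin 3, i ≠ j → f (Sum.inr i) ≠ f (Sum.inr j) := by
    intro i j hij he
    exact hij (Sum.inr.inj (f.injective he))
  have hno : ∀ i j : Fin 3, ¬ G.Adj (f (Sum.inr i)) (f (Sum.inr j)) := by
    intro i j
    rw [f.map_adj_iff]
    simp
  rcases h.claw _ _ _ _ (hadj 0) (hadj 1) (hadj 2) (hne 0 1 (by decide)) (hne 0 2 (by decide))
    (hne 1 2 (by decide)) with h1 | h1 | h1
  · exact hno _ _ h1
  · exact hno _ _ h1
  · exact hno _ _ h1

/-- The vertices of every finite claw-free cubic graph can be partitioned into two independent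
sets `A`, `B`, a 2-packing `C` and a 3-packing `D`. -/
theorem result (V : Type*) [Finite V] (G : SimpleGraph V) (h : ClawFreeCubic G) :
    ∃ A B C D : Set V, A ∪ B ∪ C ∪ D = Set.univ ∧ A ∩ B = ∅ ∧ A ∩ C = ∅ ∧ A ∩ D = ∅ ∧
      B ∩ C = ∅ ∧ B ∩ D = ∅ ∧ C ∩ D = ∅ ∧
      SPacking G 1 A ∧ SPacking G 1 B ∧ SPacking G 2 C ∧ SPacking G 3 D := by
  classical
  have := Fintype.ofFinite V
  have hreg : G.IsRegularOfDegree 3 := by
    intro v
    rw [← G.card_neighborFinset_eq_degree, SimpleGraph.neighborFinset, ← Set.ncard_eq_toFinset_card']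
    exact h.cubic v
  obtain ⟨f, hf⟩ := Pool.Agent.N370.CF.colourable_of_cc
    (Pool.Agent.N370.CF.cc_of hreg (not_ind h))
  have key : ∀ (i : Fin 4) (s : ℕ), (![1, 1, 2, 3] : Fin 4 → ℕ) i = s →
      SPacking G s {v | f v = i} := by
    intro i s hs u hu v hv huv p
    have h1 := hf i u hu v hv huv
    have h2 : G.edist u v ≤ p.length := G.edist_le p
    rw [hs] at h1
    exact_mod_cast lt_of_lt_of_le h1 h2
  refine ⟨{v | f v = 0}, {v | f v = 1}, {v | f v = 2}, {v | f v = 3}, ?_, ?_, ?_, ?_, ?_, ?_, ?_,
    key 0 1 rfl, key 1 1 rfl, key 2 2 rfl, key 3 3 rfl⟩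
  · ext v
    simp only [Set.mem_union, Set.mem_setOf_eq, Set.mem_univ, iff_true]
    generalize f v = i
    fin_cases i <;> simp
  all_goals
    ext v
    simp only [Set.mem_inter_iff, Set.mem_setOf_eq, Set.mem_empty_iff_false, iff_false, not_and]
    intro h1 h2
    rw [h1] at h2
    exact absurd h2 (by decide)

end Pool.Agent.Results.MP_b5f1b3_co.ClawFreeCubic
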